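import Mathlib

set_option autoImplicit false
open Set Filter Topology TopologicalSpace MeasureTheory
open scoped ENNReal

namespace Pool.Agent.Results.MP_a4b8ee_gt.GoodClasses

/-- every basis contains a locally finite subfamily that covers the space -/
def TotallyParacompact (X : Type) [TopologicalSpace X] : Prop :=
  ∀ B : Set (Set X), IsTopologicalBasis B →
    ∃ C : Set (Set X), C ⊆ B ∧ LocallyFinite (fun s : C => (s : Set X)) ∧ ⋃₀ C = univ

/-- from each of countably many open covers one can choose a finite subfamily such that the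
chosen sets cover the space -/
def Menger (X : Type) [TopologicalSpace X] : Prop :=
  ∀ U : ℕ → Set (Set X), (∀ n, ∀ s ∈ U n, IsOpen s) → (∀ n, ⋃₀ U n = univ) →
    ∃ A : ℕ → Set (Set X), (∀ n, A n ⊆ U n ∧ (A n).Finite) ∧ (⋃ n, ⋃₀ A n) = univ

/-- `F` is contained in the closure of a σ-compact set, or some finite Borel measure on the space
is positive on every open set that meets `F` -/
def Thick {X : Type} [TopologicalSpace X] (F : Set X) : Prop :=
  (∃ D : Set X, IsSigmaCompact D ∧ F ⊆ closure D) ∨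
    ∃ μ : @Measure X (borel X), μ univ ≠ ⊤ ∧ ∀ O : Set X, IsOpen O → (O ∩ F).Nonempty → 0 < μ O

/-- generalised ordered spaces: closed half lines are closed and the order convex open sets form a
base -/
def IsGOSpace (X : Type) [LinearOrder X] [TopologicalSpace X] : Prop :=
  (∀ a : X, IsClosed (Iic a) ∧ IsClosed (Ici a)) ∧
    ∀ (x : X) (O : Set X), IsOpen O → x ∈ O →
      ∃ W : Set X, IsOpen W ∧ W.OrdConnected ∧ x ∈ W ∧ W ⊆ O

/-- the main lemma: families `L n` of open sets without infinite locally finite subfamilies -/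
theorem select {X : Type} [TopologicalSpace X] (ht : TotallyParacompact X) {F : Set X}
    (hF : IsClosed F) (L : ℕ → Set (Set X))
    (h1 : ∀ O, IsOpen O → (O ∩ F).Nonempty → ∃ n, O ∈ L n)
    (h2 : ∀ n O O', O ∈ L n → O ⊆ O' → O' ∈ L n)
    (h3 : ∀ n O, IsOpen O → O ∈ L n → ∀ U : Set (Set X), (∀ s ∈ U, IsOpen s) → ⋃₀ U = univ →
      ∃ A ⊆ U, A.Finite ∧ O ∩ ⋃₀ A ∈ L n)
    (h4 : ∀ n, ∀ C : Set (Set X), (∀ s ∈ C, IsOpen s) →
      LocallyFinite (fun s : C => (s : Set X)) → {s ∈ C | s ∈ L n}.Finite)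
    (U : ℕ → Set (Set X)) (hU : ∀ n, ∀ s ∈ U n, IsOpen s) (hc : ∀ n, ⋃₀ U n = univ) :
    ∃ A : ℕ → Set (Set X), (∀ n, A n ⊆ U n ∧ (A n).Finite) ∧ F ⊆ ⋃ n, ⋃₀ A n := by
  classical
  let B : Set (Set X) := {b | IsOpen b ∧ (b ∩ F = ∅ ∨
    ∃ n, b ∈ L n ∧ ∃ A ⊆ U n, A.Finite ∧ b ⊆ ⋃₀ A)}
  have hB : IsTopologicalBasis B := by
    refine isTopologicalBasis_of_isOpen_of_nhds (fun b hb => hb.1) fun x O hx hO => ?_
    by_cases hxF : x ∈ F
    · obtain ⟨n, hn⟩ := h1 O hO ⟨x, hx, hxF⟩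
      obtain ⟨A, hAU, hAf, hAL⟩ := h3 n O hO hn (U n) (hU n) (hc n)
      have hx' : x ∈ ⋃₀ U n := by rw [hc n]; exact mem_univ x
      obtain ⟨u, hu, hxu⟩ := hx'
      have hsub : insert u A ⊆ U n := insert_subset hu hAU
      have hop : IsOpen (⋃₀ insert u A) := isOpen_sUnion fun s hs => hU n s (hsub hs)
      refine ⟨O ∩ ⋃₀ insert u A, ⟨hO.inter hop, Or.inr ⟨n, ?_, insert u A, hsub,
        hAf.insert u, inter_subset_right⟩⟩, ⟨hx, u, mem_insert _ _, hxu⟩, inter_subset_left⟩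
      exact h2 n _ _ hAL (inter_subset_inter_right _ (sUnion_subset_sUnion (subset_insert _ _)))
    · refine ⟨O ∩ Fᶜ, ⟨hO.inter hF.isOpen_compl, Or.inl ?_⟩, ⟨hx, hxF⟩, inter_subset_left⟩
      rw [inter_assoc, compl_inter_self, inter_empty]
  obtain ⟨C, hCB, hlf, hCcov⟩ := ht B hB
  have hCo : ∀ s ∈ C, IsOpen s := fun s hs => (hCB hs).1
  have key : ∀ n (s : Set X), ∃ A : Set (Set X), A ⊆ U n ∧ A.Finite ∧
      ((∃ A ⊆ U n, A.Finite ∧ s ⊆ ⋃₀ A) → s ⊆ ⋃₀ A) := by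
    intro n s
    by_cases h : ∃ A ⊆ U n, A.Finite ∧ s ⊆ ⋃₀ A
    · obtain ⟨A, hA, hAf, hs⟩ := h
      exact ⟨A, hA, hAf, fun _ => hs⟩
    · exact ⟨∅, empty_subset _, finite_empty, fun h' => (h h').elim⟩
  choose a ha haf has using key
  refine ⟨fun n => ⋃ s ∈ {s ∈ C | s ∈ L n}, a n s, fun n => ⟨?_, ?_⟩, fun x hx => ?_⟩
  · exact iUnion₂_subset fun s _ => ha n s
  · exact (h4 n C hCo hlf).biUnion fun s _ => haf n s
  · have hxC : x ∈ ⋃₀ C := by rw [hCcov]; exact mem_univ x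
    obtain ⟨s, hs, hxs⟩ := hxC
    rcases (hCB hs).2 with h | ⟨n, hn, h5⟩
    · have h6 : x ∈ s ∩ F := ⟨hxs, hx⟩
      rw [h] at h6
      exact h6.elim
    · obtain ⟨t, ht1, ht2⟩ := has n s h5 hxs
      exact mem_iUnion.2 ⟨n, t, mem_iUnion₂.2 ⟨s, ⟨hs, hn⟩, ht1⟩, ht2⟩

/-- selection on closed sets that are in the closure of a σ-compact set or carry a measure -/
theorem select_thick {X : Type} [TopologicalSpace X] [LindelofSpace X]
    (ht : TotallyParacompact X) {F : Set X} (hF : IsClosed F) (hT : Thick F)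
    (U : ℕ → Set (Set X)) (hU : ∀ n, ∀ s ∈ U n, IsOpen s) (hc : ∀ n, ⋃₀ U n = univ) :
    ∃ A : ℕ → Set (Set X), (∀ n, A n ⊆ U n ∧ (A n).Finite) ∧ F ⊆ ⋃ n, ⋃₀ A n := by
  classical
  rcases hT with ⟨D, ⟨K, hK, hKD⟩, hFD⟩ | ⟨μ, hμ, hpos⟩
  · refine select ht hF (fun n => {O | (O ∩ K n).Nonempty}) ?_ ?_ ?_ ?_ U hU hc
    · rintro O hO ⟨x, hxO, hxF⟩
      obtain ⟨y, hyO, hyD⟩ := mem_closure_iff.1 (hFD hxF) O hO hxO
      rw [← hKD] at hyD
      obtain ⟨n, hn⟩ := mem_iUnion.1 hyD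
      exact ⟨n, y, hyO, hn⟩
    · rintro n O O' ⟨y, hy, hyK⟩ hOO'
      exact ⟨y, hOO' hy, hyK⟩
    · rintro n O hO ⟨y, hy, hyK⟩ V hV hVc
      have hy' : y ∈ ⋃₀ V := by rw [hVc]; exact mem_univ y
      obtain ⟨u, hu, hyu⟩ := hy'
      exact ⟨{u}, singleton_subset_iff.2 hu, finite_singleton u, y,
        ⟨hy, u, mem_singleton u, hyu⟩, hyK⟩
    · intro n C _ hlf
      refine ((hlf.finite_nonempty_inter_compact (hK n)).image
        (fun s : C => (s : Set X))).subset ?_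
      rintro s ⟨hs, hs'⟩
      exact ⟨⟨s, hs⟩, hs', rfl⟩
  · let _ : MeasurableSpace X := borel X
    have _ : BorelSpace X := ⟨rfl⟩
    refine select ht hF (fun n => {O | ((n : ℝ≥0∞))⁻¹ < μ O}) ?_ ?_ ?_ ?_ U hU hc
    · intro O hO hne
      exact ENNReal.exists_inv_nat_lt (hpos O hO hne).ne'
    · intro n O O' h hOO'
      exact lt_of_lt_of_le h (measure_mono hOO')
    · intro n O hO hn V hV hVc
      obtain ⟨r, hrV, hrc, hrcov⟩ : ∃ r ⊆ V, r.Countable ∧ ⋃₀ r = univ := by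
        obtain ⟨t, htc, hts⟩ := (isLindelof_univ (X := X)).elim_countable_subcover
          (fun s : V => (s : Set X)) (fun s => hV s s.2) (by
            rw [← hVc, sUnion_eq_iUnion])
        refine ⟨(fun s : V => (s : Set X)) '' t, ?_, htc.image _, ?_⟩
        · rintro _ ⟨s, _, rfl⟩
          exact s.2
        · refine eq_univ_of_univ_subset (hts.trans ?_)
          intro x hx
          obtain ⟨s, hs, hxs⟩ := mem_iUnion₂.1 hx
          exact ⟨s, ⟨s, hs, rfl⟩, hxs⟩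
      rcases r.eq_empty_or_nonempty with hre | hrne
      · have hO0 : O = ∅ := by
          refine eq_empty_of_forall_notMem fun x _ => ?_
          have hx : x ∈ ⋃₀ r := by rw [hrcov]; exact mem_univ x
          rw [hre, sUnion_empty] at hx
          exact hx
        simp only [mem_ofPred_eq, hO0, measure_empty] at hn
        exact absurd hn not_lt_zero
      obtain ⟨f, hf⟩ := hrc.exists_eq_range hrne
      have hmono : Monotone fun k : ℕ => O ∩ ⋃₀ (f '' {i | i ≤ k}) := by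
        intro k l hkl
        refine inter_subset_inter_right _ (sUnion_subset_sUnion (image_mono ?_))
        intro i (hi : i ≤ k)
        exact hi.trans hkl
      have hun : (⋃ k, O ∩ ⋃₀ (f '' {i | i ≤ k})) = O := by
        refine subset_antisymm (iUnion_subset fun k => inter_subset_left) fun x hx => ?_
        have hx' : x ∈ ⋃₀ r := by rw [hrcov]; exact mem_univ x
        obtain ⟨s, hs, hxs⟩ := hx'
        rw [hf] at hs
        obtain ⟨i, rfl⟩ := hs
        exact mem_iUnion.2 ⟨i, hx, f i, ⟨i, le_refl i, rfl⟩, hxs⟩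
      have hsup : μ O = ⨆ k, μ (O ∩ ⋃₀ (f '' {i | i ≤ k})) := by
        conv_lhs => rw [← hun]
        exact hmono.measure_iUnion
      have hn' : ((n : ℝ≥0∞))⁻¹ < ⨆ k, μ (O ∩ ⋃₀ (f '' {i | i ≤ k})) := by
        rw [← hsup]
        exact hn
      obtain ⟨k, hk⟩ := lt_iSup_iff.1 hn'
      refine ⟨f '' {i | i ≤ k}, ?_, (finite_le_nat k).image f, hk⟩
      rintro _ ⟨i, _, rfl⟩
      exact hrV (by rw [hf]; exact mem_range_self i)
    · intro n C hCo hlf
      by_contra hinf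
      have hinf' : {s ∈ C | s ∈ {O : Set X | ((n : ℝ≥0∞))⁻¹ < μ O}}.Infinite := hinf
      let e := hinf'.natEmbedding
      let s : ℕ → Set X := fun i => (e i : Set X)
      have hsC : ∀ i, s i ∈ C := fun i => (e i).2.1
      have hsμ : ∀ i, ((n : ℝ≥0∞))⁻¹ < μ (s i) := fun i => (e i).2.2
      have hsinj : Function.Injective s := fun i j h => e.injective (Subtype.ext h)
      have hpf : ∀ x, {i | x ∈ s i}.Finite := by
        intro x
        have h5 := hlf.point_finite x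
        have h6 : Function.Injective (fun i : ℕ => (⟨s i, hsC i⟩ : C)) := fun i j h =>
          hsinj (Subtype.mk.inj h)
        exact (h5.preimage h6.injOn)
      let T : ℕ → Set X := fun k => ⋃ i ∈ {i | k ≤ i}, s i
      have hTanti : Antitone T := by
        intro k l hkl
        refine biUnion_subset_biUnion_left ?_
        intro i (hi : l ≤ i)
        exact hkl.trans hi
      have hTo : ∀ k, MeasurableSet (T k) := fun k =>
        (isOpen_biUnion fun i _ => hCo _ (hsC i)).measurableSet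
      have hTe : (⋂ k, T k) = ∅ := by
        refine eq_empty_of_forall_notMem fun x hx => ?_
        obtain ⟨M, hM⟩ := (hpf x).bddAbove
        have hx1 := mem_iInter.1 hx (M + 1)
        obtain ⟨i, hi, hxi⟩ := mem_iUnion₂.1 hx1
        have := hM hxi
        have hi' : M + 1 ≤ i := hi
        omega
      have hlim := tendsto_measure_iInter_atTop (μ := μ) (fun k => (hTo k).nullMeasurableSet)
        hTanti ⟨0, fun h => hμ (top_le_iff.1 (h ▸ measure_mono (subset_univ _)))⟩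
      rw [hTe, measure_empty] at hlim
      have hn0 : (0 : ℝ≥0∞) < ((n : ℝ≥0∞))⁻¹ := ENNReal.inv_pos.2 (ENNReal.natCast_ne_top n)
      obtain ⟨k, hk⟩ := ((tendsto_order.1 hlim).2 _ hn0).exists
      have h7 : μ (s k) ≤ μ (T k) := measure_mono (subset_biUnion_of_mem (u := s)
        (show k ∈ {i | k ≤ i} from le_refl k))
      exact absurd (hk.trans (hsμ k)) (not_lt.2 h7)

/-- the general criterion -/
theorem menger_of_thick {X : Type} [TopologicalSpace X] [LindelofSpace X]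
    (ht : TotallyParacompact X)
    (h : ∀ U : ℕ → Set (Set X), (∀ n, ∀ s ∈ U n, IsOpen s) → (∀ n, ⋃₀ U n = univ) →
      ∃ F : Set X, IsClosed F ∧ Thick F ∧ ∀ x, x ∉ F → ∃ W : Set X, IsOpen W ∧ x ∈ W ∧
        ∀ n, ∃ A ⊆ U n, A.Finite ∧ W ⊆ ⋃₀ A) : Menger X := by
  classical
  intro U hU hc
  obtain ⟨F, hF, hT, hW⟩ := h U hU hc
  obtain ⟨A, hA, hFA⟩ := select_thick ht hF hT U hU hc
  have hG : IsOpen (⋃ n, ⋃₀ A n) :=
    isOpen_iUnion fun n => isOpen_sUnion fun s hs => hU n s ((hA n).1 hs)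
  have hZ : IsLindelof (⋃ n, ⋃₀ A n)ᶜ := hG.isClosed_compl.isLindelof
  have hW' : ∀ x, ∃ W : Set X, IsOpen W ∧ x ∈ W ∧
      (x ∉ F → ∀ n, ∃ A ⊆ U n, A.Finite ∧ W ⊆ ⋃₀ A) := by
    intro x
    by_cases hx : x ∈ F
    · exact ⟨univ, isOpen_univ, mem_univ x, fun h' => (h' hx).elim⟩
    · obtain ⟨W, h1, h2, h3⟩ := hW x hx
      exact ⟨W, h1, h2, fun _ => h3⟩
  choose W hWo hxW hWA using hW'
  obtain ⟨t, htc, htZ, htcov⟩ := hZ.elim_nhds_subcover W fun x _ => (hWo x).mem_nhds (hxW x)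
  rcases t.eq_empty_or_nonempty with hte | htne
  · refine ⟨A, hA, ?_⟩
    rw [hte] at htcov
    simp only [mem_empty_iff_false, iUnion_of_empty, iUnion_empty, subset_empty_iff,
      compl_empty_iff] at htcov
    exact htcov
  obtain ⟨g, hg⟩ := htc.exists_eq_range htne
  have hgF : ∀ i, g i ∉ F := fun i hi => htZ (g i) (by rw [hg]; exact mem_range_self i) (hFA hi)
  choose a ha haf has using fun i n => hWA (g i) (hgF i) n
  refine ⟨fun n => A n ∪ ⋃ i ∈ {i | i ≤ n}, a i n, fun n => ⟨?_, ?_⟩, ?_⟩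
  · exact union_subset (hA n).1 (iUnion₂_subset fun i _ => ha i n)
  · exact (hA n).2.union ((finite_le_nat n).biUnion fun i _ => haf i n)
  · refine eq_univ_of_forall fun x => ?_
    by_cases hx : x ∈ ⋃ n, ⋃₀ A n
    · obtain ⟨n, s, hs, hxs⟩ := mem_iUnion.1 hx
      exact mem_iUnion.2 ⟨n, s, Or.inl hs, hxs⟩
    · obtain ⟨y, hy, hxy⟩ := mem_iUnion₂.1 (htcov hx)
      rw [hg] at hy
      obtain ⟨i, rfl⟩ := hy
      obtain ⟨s, hs, hxs⟩ := has i i hxy
      exact mem_iUnion.2 ⟨i, s, Or.inr (mem_iUnion₂.2 ⟨i, le_refl i, hs⟩), hxs⟩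

/-- the upper end of a subset of a Lindelöf GO-space -/
theorem upper_end {X : Type} [LinearOrder X] [TopologicalSpace X] [LindelofSpace X]
    (h : ∀ a : X, IsClosed (Iic a) ∧ IsClosed (Ici a)) (C : Set X) :
    ∃ E : Set X, E.Countable ∧ ∀ W : Set X, W.OrdConnected → ∀ c ∈ W, c ∈ C → ∀ u ∈ W,
      (∀ c' ∈ C, c' < u) → (W ∩ E).Nonempty := by
  by_cases h1 : ∃ m ∈ C, ∀ c ∈ C, c ≤ m
  · obtain ⟨m, hm, hm'⟩ := h1
    exact ⟨{m}, countable_singleton m, fun W hW c hc hcC u hu hu' =>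
      ⟨m, hW.out hc hu ⟨hm' c hcC, (hu' m hm).le⟩, mem_singleton m⟩⟩
  by_cases h2 : ∃ m, (∀ c ∈ C, c < m) ∧ ∀ u, (∀ c ∈ C, c < u) → m ≤ u
  · obtain ⟨m, hm, hm'⟩ := h2
    exact ⟨{m}, countable_singleton m, fun W hW c hc hcC u hu hu' =>
      ⟨m, hW.out hc hu ⟨(hm c hcC).le, hm' u hu'⟩, mem_singleton m⟩⟩
  push Not at h1 h2
  have hcl : IsClosed {y : X | ∃ c ∈ C, y ≤ c} := by
    have heq : {y : X | ∃ c ∈ C, y ≤ c}ᶜ = ⋃ u ∈ {u : X | ∀ c ∈ C, c < u}, Ioi u := by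
      ext y
      simp only [mem_compl_iff, mem_ofPred_eq, not_exists, not_and, not_le, mem_iUnion, mem_Ioi,
        exists_prop]
      constructor
      · intro hy
        obtain ⟨u, hu, huy⟩ := h2 y hy
        exact ⟨u, hu, huy⟩
      · rintro ⟨u, hu, huy⟩ c hc
        exact (hu c hc).trans huy
    rw [← isOpen_compl_iff, heq]
    refine isOpen_biUnion fun u _ => ?_
    rw [← compl_Iic]
    exact (h u).1.isOpen_compl
  obtain ⟨t, htc, hts⟩ := hcl.isLindelof.elim_countable_subcover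
    (fun c : C => Iio (c : X)) (fun c => by
      rw [← compl_Ici]
      exact (h c).2.isOpen_compl) (by
      rintro y ⟨c, hc, hyc⟩
      obtain ⟨c', hc', hcc'⟩ := h1 c hc
      exact mem_iUnion.2 ⟨⟨c', hc'⟩, lt_of_le_of_lt hyc hcc'⟩)
  refine ⟨(fun c : C => (c : X)) '' t, htc.image _, fun W hW c hc hcC u hu hu' => ?_⟩
  obtain ⟨c', hc't, hcc'⟩ := mem_iUnion₂.1 (hts (show c ∈ {y : X | ∃ c ∈ C, y ≤ c} from
    ⟨c, hcC, le_refl c⟩))
  exact ⟨c', hW.out hc hu ⟨le_of_lt hcc', (hu' c' c'.2).le⟩, ⟨c', hc't, rfl⟩⟩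

/-- the lower end of a subset of a Lindelöf GO-space -/
theorem lower_end {X : Type} [LinearOrder X] [TopologicalSpace X] [LindelofSpace X]
    (h : ∀ a : X, IsClosed (Iic a) ∧ IsClosed (Ici a)) (C : Set X) :
    ∃ E : Set X, E.Countable ∧ ∀ W : Set X, W.OrdConnected → ∀ c ∈ W, c ∈ C → ∀ u ∈ W,
      (∀ c' ∈ C, u < c') → (W ∩ E).Nonempty := by
  by_cases h1 : ∃ m ∈ C, ∀ c ∈ C, m ≤ c
  · obtain ⟨m, hm, hm'⟩ := h1
    exact ⟨{m}, countable_singleton m, fun W hW c hc hcC u hu hu' =>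
      ⟨m, hW.out hu hc ⟨(hu' m hm).le, hm' c hcC⟩, mem_singleton m⟩⟩
  by_cases h2 : ∃ m, (∀ c ∈ C, m < c) ∧ ∀ u, (∀ c ∈ C, u < c) → u ≤ m
  · obtain ⟨m, hm, hm'⟩ := h2
    exact ⟨{m}, countable_singleton m, fun W hW c hc hcC u hu hu' =>
      ⟨m, hW.out hu hc ⟨hm' u hu', (hm c hcC).le⟩, mem_singleton m⟩⟩
  push Not at h1 h2
  have hcl : IsClosed {y : X | ∃ c ∈ C, c ≤ y} := by
    have heq : {y : X | ∃ c ∈ C, c ≤ y}ᶜ = ⋃ u ∈ {u : X | ∀ c ∈ C, u < c}, Iio u := by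
      ext y
      simp only [mem_compl_iff, mem_ofPred_eq, not_exists, not_and, not_le, mem_iUnion, mem_Iio,
        exists_prop]
      constructor
      · intro hy
        obtain ⟨u, hu, huy⟩ := h2 y hy
        exact ⟨u, hu, huy⟩
      · rintro ⟨u, hu, huy⟩ c hc
        exact huy.trans (hu c hc)
    rw [← isOpen_compl_iff, heq]
    refine isOpen_biUnion fun u _ => ?_
    rw [← compl_Ici]
    exact (h u).2.isOpen_compl
  obtain ⟨t, htc, hts⟩ := hcl.isLindelof.elim_countable_subcover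
    (fun c : C => Ioi (c : X)) (fun c => by
      rw [← compl_Iic]
      exact (h c).1.isOpen_compl) (by
      rintro y ⟨c, hc, hyc⟩
      obtain ⟨c', hc', hcc'⟩ := h1 c hc
      exact mem_iUnion.2 ⟨⟨c', hc'⟩, lt_of_lt_of_le hcc' hyc⟩)
  refine ⟨(fun c : C => (c : X)) '' t, htc.image _, fun W hW c hc hcC u hu hu' => ?_⟩
  obtain ⟨c', hc't, hcc'⟩ := mem_iUnion₂.1 (hts (show c ∈ {y : X | ∃ c ∈ C, c ≤ y} from
    ⟨c, hcC, le_refl c⟩))
  exact ⟨c', hW.out hu hc ⟨(hu' c' c'.2).le, le_of_lt hcc'⟩, ⟨c', hc't, rfl⟩⟩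

/-- both ends of an order convex set -/
theorem both_ends {X : Type} [LinearOrder X] [TopologicalSpace X] [LindelofSpace X]
    (h : ∀ a : X, IsClosed (Iic a) ∧ IsClosed (Ici a)) (C : Set X) :
    ∃ E : Set X, E.Countable ∧ (C.OrdConnected → ∀ W : Set X, W.OrdConnected →
      (W ∩ C).Nonempty → W ∩ E = ∅ → W ⊆ C) := by
  obtain ⟨E₁, hE₁, h₁⟩ := upper_end h C
  obtain ⟨E₂, hE₂, h₂⟩ := lower_end h C
  refine ⟨E₁ ∪ E₂, hE₁.union hE₂, fun hC W hW hWC hWE x hx => ?_⟩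
  by_contra hxC
  obtain ⟨c, hcW, hcC⟩ := hWC
  have hne : ¬ (W ∩ (E₁ ∪ E₂)).Nonempty := by
    rw [hWE]
    exact not_nonempty_empty
  rcases lt_trichotomy c x with hcx | hcx | hcx
  · have h3 : ∀ c' ∈ C, c' < x := by
      intro c' hc'
      by_contra hle
      exact hxC (hC.out hcC hc' ⟨hcx.le, not_lt.1 hle⟩)
    obtain ⟨e, he, he'⟩ := h₁ W hW c hcW hcC x hx h3
    exact hne ⟨e, he, Or.inl he'⟩
  · exact hxC (hcx ▸ hcC)
  · have h3 : ∀ c' ∈ C, x < c' := by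
      intro c' hc'
      by_contra hle
      exact hxC (hC.out hc' hcC ⟨not_lt.1 hle, hcx.le⟩)
    obtain ⟨e, he, he'⟩ := h₂ W hW c hcW hcC x hx h3
    exact hne ⟨e, he, Or.inr he'⟩

/-- GO-spaces -/
theorem menger_go {X : Type} [LinearOrder X] [TopologicalSpace X] [LindelofSpace X]
    (hX : IsGOSpace X) (ht : TotallyParacompact X) : Menger X := by
  classical
  refine menger_of_thick ht fun U hU hc => ?_
  choose E hE hE' using fun C : Set X => both_ends hX.1 C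
  -- countable convex refinements
  have href : ∀ n, ∃ r : Set (Set X), r.Countable ∧ ⋃₀ r = univ ∧
      ∀ s ∈ r, s.OrdConnected ∧ ∃ u ∈ U n, s ⊆ u := by
    intro n
    have h1 : ∀ x : X, ∃ W : Set X, IsOpen W ∧ W.OrdConnected ∧ x ∈ W ∧ ∃ u ∈ U n, W ⊆ u := by
      intro x
      have hx : x ∈ ⋃₀ U n := by rw [hc n]; exact mem_univ x
      obtain ⟨u, hu, hxu⟩ := hx
      obtain ⟨W, h2, h3, h4, h5⟩ := hX.2 x u (hU n u hu) hxu
      exact ⟨W, h2, h3, h4, u, hu, h5⟩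
    choose W hWo hWc hxW hWu using h1
    obtain ⟨t, htc, _, htcov⟩ := (isLindelof_univ (X := X)).elim_nhds_subcover W
      fun x _ => (hWo x).mem_nhds (hxW x)
    refine ⟨W '' t, htc.image W, ?_, ?_⟩
    · refine eq_univ_of_forall fun x => ?_
      obtain ⟨y, hy, hxy⟩ := mem_iUnion₂.1 (htcov (mem_univ x))
      exact ⟨W y, ⟨y, hy, rfl⟩, hxy⟩
    · rintro _ ⟨y, _, rfl⟩
      exact ⟨hWc y, hWu y⟩
  choose r hrc hrcov hr using href
  let D : Set X := ⋃ n, ⋃ C ∈ r n, E C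
  have hD : D.Countable := countable_iUnion fun n => (hrc n).biUnion fun C _ => hE C
  have hDs : IsSigmaCompact D := by
    have h1 : (⋃ x ∈ D, ({x} : Set X)) = D := biUnion_of_singleton D
    rw [← h1]
    exact isSigmaCompact_biUnion hD fun x _ => isCompact_singleton.isSigmaCompact
  refine ⟨closure D, isClosed_closure, Or.inl ⟨D, hDs, subset_rfl⟩,
    fun x hx => ?_⟩
  obtain ⟨W, hWo, hWc, hxW, hWD⟩ := hX.2 x (closure D)ᶜ isClosed_closure.isOpen_compl hx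
  refine ⟨W, hWo, hxW, fun n => ?_⟩
  have hx' : x ∈ ⋃₀ r n := by rw [hrcov n]; exact mem_univ x
  obtain ⟨C, hC, hxC⟩ := hx'
  obtain ⟨hCc, u, hu, hCu⟩ := hr n C hC
  have hWE : W ∩ E C = ∅ := by
    refine eq_empty_of_forall_notMem fun y hy => ?_
    exact hWD hy.1 (subset_closure (mem_iUnion.2 ⟨n, mem_iUnion₂.2 ⟨C, hC, hy.2⟩⟩))
  refine ⟨{u}, singleton_subset_iff.2 hu, finite_singleton u, ?_⟩
  rw [sUnion_singleton]
  exact (hE' C hCc W hWc ⟨x, hxW, hxC⟩ hWE).trans hCu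

theorem result :
    (∀ (X : Type) [TopologicalSpace X] [LindelofSpace X], TotallyParacompact X →
      (∀ U : ℕ → Set (Set X), (∀ n, ∀ s ∈ U n, IsOpen s) → (∀ n, ⋃₀ U n = univ) →
        ∃ F : Set X, IsClosed F ∧ Thick F ∧ ∀ x, x ∉ F → ∃ W : Set X, IsOpen W ∧ x ∈ W ∧
          ∀ n, ∃ A ⊆ U n, A.Finite ∧ W ⊆ ⋃₀ A) → Menger X) ∧
    (∀ (X : Type) [TopologicalSpace X] [LindelofSpace X] (F : Set X), TotallyParacompact X →
      IsClosed F → Thick F → (∀ x, x ∉ F → ∃ K : Set X, IsCompact K ∧ K ∈ 𝓝 x) → Menger X) ∧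
    (∀ (X : Type) [LinearOrder X] [TopologicalSpace X] [LindelofSpace X], IsGOSpace X →
      TotallyParacompact X → Menger X) := by
  refine ⟨fun X _ _ ht h => menger_of_thick ht h, fun X _ _ F ht hF hT hK => ?_,
    fun X _ _ _ hX ht => menger_go hX ht⟩
  refine menger_of_thick ht fun U hU hc => ⟨F, hF, hT, fun x hx => ?_⟩
  obtain ⟨K, hKc, hKx⟩ := hK x hx
  refine ⟨interior K, isOpen_interior, mem_interior_iff_mem_nhds.2 hKx, fun n => ?_⟩
  obtain ⟨t, ht'⟩ := hKc.elim_finite_subcover (fun s : U n => (s : Set X)) (fun s => hU n s s.2)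
    (by rw [← sUnion_eq_iUnion, hc n]; exact subset_univ K)
  refine ⟨(fun s : U n => (s : Set X)) '' (t : Set (U n)), ?_, t.finite_toSet.image _, ?_⟩
  · rintro _ ⟨s, _, rfl⟩
    exact s.2
  · intro y hy
    obtain ⟨s, hs, hys⟩ := mem_iUnion₂.1 (ht' (interior_subset hy))
    exact ⟨s, ⟨s, hs, rfl⟩, hys⟩

end Pool.Agent.Results.MP_a4b8ee_gt.GoodClasses
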