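import Pool.Agent.helper67.Sigma

set_option autoImplicit false
open Set Filter Topology TopologicalSpace

namespace Pool.Agent.Results.MP_a4b8ee_gt.LindelofSigma

/-- every base contains a point-finite subfamily that covers the space (this is weaker than total
paracompactness, where the subfamily has to be locally finite) -/
def TotallyMetacompact (X : Type) [TopologicalSpace X] : Prop :=
  ∀ B : Set (Set X), IsTopologicalBasis B →
    ∃ C : Set (Set X), C ⊆ B ∧ (∀ x, {s ∈ C | x ∈ s}.Finite) ∧ ⋃₀ C = univ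

/-- from each of countably many open covers one can choose a finite subfamily such that the
chosen sets cover the space -/
def Menger (X : Type) [TopologicalSpace X] : Prop :=
  ∀ U : ℕ → Set (Set X), (∀ n, ∀ s ∈ U n, IsOpen s) → (∀ n, ⋃₀ U n = univ) →
    ∃ A : ℕ → Set (Set X), (∀ n, A n ⊆ U n ∧ (A n).Finite) ∧ (⋃ n, ⋃₀ A n) = univ

/-- there are a cover `K` by compact sets and a countable family `N` of sets such that for every
`C` in `K` and every open set `O` containing `C` some member of `N` lies between `C` and `O` -/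
def CountablyDetermined (X : Type) [TopologicalSpace X] : Prop :=
  ∃ K N : Set (Set X), (∀ C ∈ K, IsCompact C) ∧ ⋃₀ K = univ ∧ N.Countable ∧
    ∀ C ∈ K, ∀ O : Set X, IsOpen O → C ⊆ O → ∃ S ∈ N, C ⊆ S ∧ S ⊆ O

theorem lindelof_of_determined {X : Type} [TopologicalSpace X] (h : CountablyDetermined X) :
    LindelofSpace X := by
  obtain ⟨K, N, hK, hKc, hN, hnet⟩ := h
  refine ⟨isLindelof_of_countable_subcover fun {ι} U hU hcov => ?_⟩
  have h1 : ∀ S : Set X, ∃ t : Finset ι, (∃ t : Finset ι, S ⊆ ⋃ i ∈ t, U i) → S ⊆ ⋃ i ∈ t, U i := by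
    intro S
    by_cases h : ∃ t : Finset ι, S ⊆ ⋃ i ∈ t, U i
    · obtain ⟨t, ht⟩ := h
      exact ⟨t, fun _ => ht⟩
    · exact ⟨∅, fun h' => (h h').elim⟩
  choose t ht using h1
  refine ⟨⋃ S ∈ N, (t S : Set ι), hN.biUnion fun S _ => (t S).countable_toSet, fun x _ => ?_⟩
  have hx : x ∈ ⋃₀ K := by rw [hKc]; exact mem_univ x
  obtain ⟨C, hC, hxC⟩ := hx
  obtain ⟨s, hs⟩ := (hK C hC).elim_finite_subcover U hU ((subset_univ C).trans hcov)
  obtain ⟨S, hS, hCS, hSO⟩ := hnet C hC (⋃ i ∈ s, U i)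
    (isOpen_iUnion fun i => isOpen_iUnion fun _ => hU i) hs
  have h2 := ht S ⟨s, hSO⟩ (hCS hxC)
  obtain ⟨i, hi, hxi⟩ := mem_iUnion₂.1 h2
  exact mem_iUnion₂.2 ⟨i, mem_iUnion₂.2 ⟨S, hS, hi⟩, hxi⟩

theorem result (X : Type) [TopologicalSpace X] [RegularSpace X] (hX : CountablyDetermined X)
    (ht : TotallyMetacompact X) : Menger X := by
  classical
  intro U hUo hUc
  rcases isEmpty_or_nonempty X with hE | hE
  · refine ⟨fun _ => ∅, fun n => ⟨empty_subset _, finite_empty⟩, ?_⟩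
    rw [eq_univ_iff_forall]
    exact fun x => (hE.false x).elim
  have hL : LindelofSpace X := lindelof_of_determined hX
  choose v G hGo hGm hGc hvc hvu hGv using fun n =>
    Pool.Agent.helper67.Sigma.exists_layers (U n) (hUo n) (hUc n)
  choose u hu huc using hvu
  obtain ⟨K, N, hK, hKc, hN, hnet⟩ := hX
  -- the countable set
  let P : (Σ m : ℕ, (Fin m → ℕ)) → Set X := fun q => {x | ∀ i : Fin q.1, x ∈ v i (q.2 i)}
  have h4 : ∀ (S : Set X) (q : Σ m : ℕ, (Fin m → ℕ)), ∃ d : X, (S ∩ P q).Nonempty →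
      d ∈ S ∩ P q := by
    intro S q
    by_cases h : (S ∩ P q).Nonempty
    · obtain ⟨d, hd⟩ := h
      exact ⟨d, fun _ => hd⟩
    · exact ⟨Classical.arbitrary X, fun h' => (h h').elim⟩
  choose d hd using h4
  let D : Set X := ⋃ S ∈ N, range (d S)
  have hDc : D.Countable := hN.biUnion fun S _ => countable_range _
  obtain ⟨f, hf⟩ := Pool.Agent.helper67.Sigma.select_closure ht hDc G hGo hGm hGc
  have key : ∀ x, ∃ n, ∃ j ≤ f n, x ∈ v n j := by
    intro x
    choose r hr using fun n => hvc n x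
    have hx : x ∈ ⋃₀ K := by rw [hKc]; exact mem_univ x
    obtain ⟨C, hC, hxC⟩ := hx
    let Z : ℕ → Set X := fun m => closure D ∩ ⋂ i : Fin m, closure (v i (r i))
    have hZc : ∀ m, IsClosed (Z m) := fun m =>
      isClosed_closure.inter (isClosed_iInter fun i => isClosed_closure)
    have hZm : ∀ m l, m ≤ l → Z l ⊆ Z m := by
      intro m l hml y hy
      refine ⟨hy.1, mem_iInter.2 fun i => ?_⟩
      exact mem_iInter.1 hy.2 (⟨i, lt_of_lt_of_le i.2 hml⟩ : Fin l)
    have hne : ∀ m, (C ∩ Z m).Nonempty := by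
      intro m
      by_contra hcon
      rw [not_nonempty_iff_eq_empty] at hcon
      have hCZ : C ⊆ (Z m)ᶜ := by
        intro y hy hyZ
        have : y ∈ C ∩ Z m := ⟨hy, hyZ⟩
        rw [hcon] at this
        exact this
      obtain ⟨S, hS, hCS, hSZ⟩ := hnet C hC _ (hZc m).isOpen_compl hCZ
      have h5 : (S ∩ P ⟨m, fun i => r i⟩).Nonempty := ⟨x, hCS hxC, fun i => hr i⟩
      have h6 := hd S ⟨m, fun i => r i⟩ h5
      apply hSZ h6.1
      refine ⟨subset_closure (mem_iUnion₂.2 ⟨S, hS, mem_range_self _⟩), mem_iInter.2 fun i => ?_⟩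
      exact subset_closure (h6.2 i)
    obtain ⟨y, hyC, hyZ⟩ : (C ∩ ⋂ m, Z m).Nonempty := by
      refine (hK C hC).inter_iInter_nonempty Z hZc fun T => ?_
      obtain ⟨m, hm⟩ := T.bddAbove
      obtain ⟨y, hy, hyZ⟩ := hne m
      exact ⟨y, hy, mem_iInter₂.2 fun i hi => hZm i m (hm hi) hyZ⟩
    rw [mem_iInter] at hyZ
    obtain ⟨n, hn⟩ := hf y (hyZ 0).1
    refine ⟨n, r n, ?_, hr n⟩
    by_contra hcon
    have h7 : y ∈ G n (f n) ∩ closure (v n (r n)) :=
      ⟨hn, mem_iInter.1 (hyZ (n + 1)).2 (⟨n, Nat.lt_succ_self n⟩ : Fin (n + 1))⟩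
    rw [hGv n _ _ (not_le.1 hcon)] at h7
    exact h7
  refine ⟨fun n => (u n) '' Set.Iic (f n), fun n => ⟨?_, (Set.finite_Iic _).image _⟩, ?_⟩
  · rintro _ ⟨j, -, rfl⟩
    exact hu n j
  · rw [eq_univ_iff_forall]
    intro x
    obtain ⟨n, j, hj, hxj⟩ := key x
    exact mem_iUnion.2 ⟨n, u n j, ⟨j, hj, rfl⟩, huc n j hxj⟩

end Pool.Agent.Results.MP_a4b8ee_gt.LindelofSigma
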