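import Pool.Agent.helper67.Lav.Enum

set_option autoImplicit false
open Set Filter Topology TopologicalSpace

namespace Pool.Agent.Results.MP_a4b8ee_gt.UnderCH

/-- every base contains a locally finite subfamily that covers the space -/
def TotallyParacompact (X : Type) [TopologicalSpace X] : Prop :=
  ∀ B : Set (Set X), IsTopologicalBasis B →
    ∃ C : Set (Set X), C ⊆ B ∧ LocallyFinite (fun s : C => (s : Set X)) ∧ ⋃₀ C = univ

/-- from each of countably many open covers one can choose a finite subfamily such that the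
chosen sets cover the space -/
def Menger (X : Type) [TopologicalSpace X] : Prop :=
  ∀ U : ℕ → Set (Set X), (∀ n, ∀ s ∈ U n, IsOpen s) → (∀ n, ⋃₀ U n = univ) →
    ∃ A : ℕ → Set (Set X), (∀ n, A n ⊆ U n ∧ (A n).Finite) ∧ (⋃ n, ⋃₀ A n) = univ

theorem result (CH : Cardinal.continuum.{0} = Cardinal.aleph 1) :
    ∃ (X : Type) (_ : TopologicalSpace X), T3Space X ∧ IsTopologicalBasis {s : Set X | IsClopen s} ∧
      HereditarilyLindelofSpace X ∧ TotallyParacompact X ∧ ¬ Menger X := by
  obtain ⟨A, hL, hD, hG⟩ := Pool.Agent.helper67.Lav.exists_generic_set CH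
  refine ⟨A, inferInstance, inferInstance, ?_, Pool.Agent.helper67.Lav.her_lind hL,
    fun B hB => Pool.Agent.helper67.Lav.tot_para hL hD hG hB, Pool.Agent.helper67.Lav.not_menger hD⟩
  refine isTopologicalBasis_of_isOpen_of_nhds (fun s hs => hs.isOpen) fun x O hx hO => ?_
  obtain ⟨O', hO', rfl⟩ := isOpen_induced_iff.1 hO
  obtain ⟨n, F, h1, h2⟩ := Pool.Agent.helper67.Lav.isOpen_iff.1 hO' x hx
  refine ⟨Subtype.val ⁻¹' Pool.Agent.helper67.Lav.box (Pool.Agent.helper67.Lav.res (x : _) n) F,
    ⟨?_, ?_⟩, Pool.Agent.helper67.Lav.mem_box_self h1, fun y hy => h2 hy⟩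
  · exact (Pool.Agent.helper67.Lav.isClosed_box _ _).preimage continuous_subtype_val
  · exact (Pool.Agent.helper67.Lav.isOpen_box _ _).preimage continuous_subtype_val

end Pool.Agent.Results.MP_a4b8ee_gt.UnderCH
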